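import Pool.Agent.Helper92.BM.Transfer
/-!
# Braid graphs of arbitrary Coxeter systems are median graphs (Q1 of MP_e319d1_co)

No condition on the Coxeter matrix is needed: for every Coxeter system, the reduced words which are
connected with a given one by braid moves of length `m(s,t) ≥ 3`, or by the braid moves of any
symmetric set `E` of such pairs, form a median graph.
-/

set_option autoImplicit false

namespace Pool.Agent.Results.MP_e319d1_co.AllCoxeterSystems

open Pool.Agent.Helper92.BM

variable {B : Type*}

/-- The alternating word `s t s t ⋯` of length `n`. -/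
def altWord (s t : B) : ℕ → List B
  | 0 => []
  | n + 1 => s :: altWord t s n

/-- A set of braid relations: a symmetric set `E` of pairs `(s, t)` with `3 ≤ m(s,t) < ∞` (in
Mathlib the value `M s t = 0` stands for `m(s,t) = ∞`). The largest one consists of all
these pairs. -/
structure IsBraidSet (M : CoxeterMatrix B) (E : B → B → Prop) : Prop where
  symm : ∀ s t, E s t → E t s
  three_le : ∀ s t, E s t → 3 ≤ M s t

/-- A braid move replaces a factor `s t s ⋯` of length `m(s,t)` by `t s t ⋯` of the same length,
where `(s, t)` is in `E`. -/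
def BraidMove (M : CoxeterMatrix B) (E : B → B → Prop) (β γ : List B) : Prop :=
  ∃ (u v : List B) (s t : B), E s t ∧ β = u ++ altWord s t (M s t) ++ v ∧
    γ = u ++ altWord t s (M s t) ++ v

/-- The braid class of a word: all words obtained from it by finitely many braid moves. -/
def BraidClass (M : CoxeterMatrix B) (E : B → B → Prop) (α : List B) : Type _ :=
  {β : List B // Relation.ReflTransGen (BraidMove M E) α β}

/-- The braid graph of a word: two different members of the braid class are adjacent if they
differ by one braid move. -/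
def braidGraph (M : CoxeterMatrix B) (E : B → B → Prop) (α : List B) :
    SimpleGraph (BraidClass M E α) :=
  SimpleGraph.fromRel fun β γ => BraidMove M E β.1 γ.1

/-- Median graphs: connected, and for all `u, v, w` exactly one vertex lies on shortest paths
between each two of them. -/
def IsMedianGraph {V : Type*} (G : SimpleGraph V) : Prop :=
  G.Connected ∧ ∀ u v w : V, ∃! m : V,
    G.dist u m + G.dist m v = G.dist u v ∧
    G.dist v m + G.dist m w = G.dist v w ∧
    G.dist u m + G.dist m w = G.dist u w

theorem altWord_eq (s t : B) (n : ℕ) : altWord s t n = aw s t n := by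
  induction n generalizing s t with
  | zero => rfl
  | succ n ih => rw [aw_succ, altWord, ih]

theorem braidMove_eq (M : CoxeterMatrix B) (E : B → B → Prop) : BraidMove M E = Mv M E := by
  funext β γ
  unfold BraidMove Mv
  simp only [altWord_eq]

/-- **Braid graphs are median in every Coxeter system.** Let `(W, S)` be a Coxeter system, without
any condition on its Coxeter matrix, let `E` be a symmetric set of pairs `(s, t)` with
`3 ≤ m(s,t) < ∞` (for example all of them) and let `α` be a reduced word. Then the graph on the
words obtained from `α` by braid moves with pairs in `E` is a median graph. -/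
theorem result {B W : Type*} [Group W] (M : CoxeterMatrix B) (cs : CoxeterSystem M W)
    (E : B → B → Prop) (hE : IsBraidSet M E) (α : List B) (hα : cs.IsReduced α) :
    IsMedianGraph (braidGraph M E α) := by
  classical
  have hA : Adm M E := ⟨hE.symm, hE.three_le⟩
  unfold braidGraph BraidClass
  rw [braidMove_eq]
  set G : SimpleGraph (Cls M E α) := SimpleGraph.fromRel fun β γ => Mv M E β.1 γ.1 with hG
  have hadj : ∀ β γ, G.Adj β γ ↔ Mv M E β.1 γ.1 := by
    intro β γ
    rw [hG, SimpleGraph.fromRel_adj]
    constructor
    · rintro ⟨_, h | h⟩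
      · exact h
      · exact h.symm hA
    · exact fun h => ⟨fun e => h.ne hA (congrArg Subtype.val e), Or.inl h⟩
  have hinj : Function.Injective (List.map (Subtype.val : {b // b ∈ α} → B)) :=
    List.map_injective_iff.mpr Subtype.val_injective
  have hP := PP_all (cs := (rm M E hA α).toCoxeterSystem) (rm_noTwo hA α) _
      ((rm M E hA α).toCoxeterSystem.wordProd α.attach) le_rfl
  have hcl := fun β : Cls M E α => (class_iff hA hα β.1).mp β.2
  choose pre hpre hpre2 using hcl
  have hD : ∀ β γ : Cls M E α, G.Reachable β γ ∧
      G.dist β γ = (Gr (rm M E hA α)).dist (pre β) (pre γ) := fun β γ =>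
    dist_transfer hA hα G hadj (pre β) (pre γ) β γ (hpre2 β) (hpre2 γ)
  have hsurj : ∀ x ∈ RW (rm M E hA α).toCoxeterSystem
      ((rm M E hA α).toCoxeterSystem.wordProd α.attach), ∃ β : Cls M E α, pre β = x := by
    intro x hx
    let β : Cls M E α := ⟨x.map Subtype.val, (class_iff hA hα _).mpr ⟨x, hx, rfl⟩⟩
    exact ⟨β, hinj (hpre2 β).symm⟩
  have hpreinj : ∀ β γ : Cls M E α, pre β = pre γ → β = γ := by
    intro β γ h
    apply Subtype.ext
    rw [hpre2 β, hpre2 γ, h]
  have : Nonempty (Cls M E α) := ⟨⟨α, Relation.ReflTransGen.refl⟩⟩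
  refine ⟨⟨fun β γ => (hD β γ).1⟩, ?_⟩
  intro u v w
  obtain ⟨m, ⟨hm, h1, h2, h3⟩, huniq⟩ := hP.med _ (hpre u) _ (hpre v) _ (hpre w)
  obtain ⟨n, rfl⟩ := hsurj m hm
  simp only [(hD _ _).2]
  refine ⟨n, ⟨h1, h2, h3⟩, ?_⟩
  rintro n' ⟨k1, k2, k3⟩
  exact hpreinj _ _ (huniq (pre n') ⟨hpre n', k1, k2, k3⟩)

end Pool.Agent.Results.MP_e319d1_co.AllCoxeterSystems
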